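import Pool.Agent.Lib.MP_4ddb19_al.Odd
import Pool.Agent.Lib.MP_4ddb19_al.Even

/-!
# `PSL_2(q)`, `q` prime, with a subgroup of index `q`

The members of S(G) are the subgroups of order `q`.
-/

namespace Pool.Agent.MP_4ddb19_al.Small

open Subgroup MulAction Pool.Agent.MP_4ddb19_al
open scoped MatrixGroups LinearAlgebra.Projectivization Pointwise

lemma arith {q d : ℕ} (hq : q.Prime) (h : d ∣ (q * (q - 1)) * (q + 1)) (hd : d ≡ 1 [MOD q])
    (h1 : 1 < d) : d = q + 1 := by
  have hq2 := hq.two_le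
  have hcop : Nat.Coprime d q := by
    have h2 : Nat.gcd d q = Nat.gcd 1 q := hd.gcd_eq
    rw [Nat.gcd_one_left] at h2
    exact h2
  have h3 : d ∣ (q - 1) * (q + 1) := by
    rw [mul_assoc] at h
    exact hcop.dvd_of_dvd_mul_left h
  obtain ⟨m, hm⟩ := h3
  obtain ⟨r, rfl⟩ : ∃ r, q = r + 1 := ⟨q - 1, by omega⟩
  have hdk : ∃ k, d = k * (r + 1) + 1 := by
    have h4 : (r + 1) ∣ d - 1 := (Nat.modEq_iff_dvd' h1.le).1 hd.symm
    obtain ⟨k, hk⟩ := h4
    exact ⟨k, by rw [mul_comm]; omega⟩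
  obtain ⟨k, hk⟩ := hdk
  have hk1 : 1 ≤ k := by
    rcases Nat.eq_zero_or_pos k with h5 | h5
    · subst h5; omega
    · exact h5
  have h5 : (k * (r + 1) + 1) * m + 1 = (r + 1) * (r + 1) := by
    rw [← hk, ← hm, Nat.add_sub_cancel]; ring
  have h6 : (r + 1) ∣ m + 1 := by
    have h7 : (r + 1) ∣ k * (r + 1) * m + (m + 1) := ⟨r + 1, by rw [← h5]; ring⟩
    exact (Nat.dvd_add_right ⟨k * m, by ring⟩).1 h7
  obtain ⟨l, hl⟩ := h6
  have hl1 : 1 ≤ l := by
    rcases Nat.eq_zero_or_pos l with h7 | h7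
    · subst h7; omega
    · exact h7
  have h8 : k * (r + 1) * l + l = (r + 1) + k := by
    have h9 : (r + 1) * (k * (r + 1) * l + l) = (r + 1) * ((r + 1) + k) := by
      have : (k * (r + 1) + 1) * (m + 1) = (r + 1) * (r + 1) + k * (r + 1) := by
        rw [← h5]; ring
      rw [hl] at this
      linarith
    exact Nat.eq_of_mul_eq_mul_left (Nat.succ_pos r) h9
  have hl2 : l = 1 := by
    by_contra hne
    have h9 : 2 ≤ l := by omega
    nlinarith [Nat.mul_le_mul (Nat.mul_le_mul hk1 (le_refl (r + 1))) h9,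
      Nat.mul_le_mul (le_refl k) hq2]
  subst hl2
  have hk2 : k = 1 := by
    by_contra hne
    have h9 : 2 ≤ k := by omega
    nlinarith [Nat.mul_le_mul h9 hq2]
  rw [hk, hk2]; ring

variable {F : Type*} [Field F] [Finite F]

theorem card_psl (h5 : 5 ≤ Nat.card F) (hodd : Nat.card F % 2 = 1) :
    2 * Nat.card PSL(2, F) = (Nat.card F * (Nat.card F - 1)) * (Nat.card F + 1) := by
  have hfin : Finite PSL(2, F) := Odd.finite_psl
  have h2 : (2 : F) ≠ 0 := Odd.two_ne hodd
  have hfF : Fintype F := Fintype.ofFinite F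
  rcases (by omega : Nat.card F % 4 = 1 ∨ Nat.card F % 4 = 3) with h4 | h4
  · have hi : IsSquare (-1 : F) := by
      rw [FiniteField.isSquare_neg_one_iff, ← Nat.card_eq_fintype_card]
      omega
    exact Odd.card_G (Odd.obend h2 hi h5) (Odd.inf F)
  · have hi : ¬ IsSquare (-1 : F) := by
      rw [FiniteField.isSquare_neg_one_iff, ← Nat.card_eq_fintype_card]
      omega
    exact Odd.T3.card_G (Odd.tbend h2 hi) (Odd.inf F)

theorem psl_q (hF : 4 ≤ Nat.card F) (hp : (Nat.card F).Prime)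
    (hK : ∃ K : Subgroup PSL(2, F), K.index = Nat.card F) :
    minIndex PSL(2, F) = Nat.card F ∧
      (∃ A : Subgroup PSL(2, F), Nat.card A = Nat.card F) ∧
      (∀ A B : Subgroup PSL(2, F), Nat.card A = Nat.card F → Nat.card B = Nat.card F →
        ∃ g : PSL(2, F), B = MulAut.conj g • A) ∧
      ∀ A : Subgroup PSL(2, F), (InS A ↔ Nat.card A = Nat.card F) ∧
        (IsWide A ↔ Nat.card A = Nat.card F) := by
  have hodd : Nat.card F % 2 = 1 := (hp.eq_two_or_odd).resolve_left (by omega)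
  have h5 : 5 ≤ Nat.card F := by omega
  have hfin : Finite PSL(2, F) := Odd.finite_psl
  have hs : IsSimpleGroup PSL(2, F) := Matrix.ProjectiveSpecialLinearGroup.rank_two_simple hF
  have hcard := card_psl (F := F) h5 hodd
  obtain ⟨H, hH⟩ := hK
  have hm : minIndex PSL(2, F) = Nat.card F := by
    rw [Even.minIndex_eq H (hH ▸ hp), hH]
  have hp' : (minIndex PSL(2, F)).Prime := hm ▸ hp
  have hfp : Fact (Nat.card F).Prime := ⟨hp⟩
  have hG : Nat.card PSL(2, F) ≠ minIndex PSL(2, F) := by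
    intro h
    rw [h, hm] at hcard
    have h6 : 2 = (Nat.card F - 1) * (Nat.card F + 1) := by
      apply Nat.eq_of_mul_eq_mul_left hp.pos
      rw [mul_comm (Nat.card F) 2, hcard]; ring
    have h7 : 4 * 6 ≤ (Nat.card F - 1) * (Nat.card F + 1) :=
      Nat.mul_le_mul (by omega) (by omega)
    omega
  have hdvd : ∀ d, d ∣ Nat.card PSL(2, F) → d ≡ 1 [MOD Nat.card F] → 1 < d →
      d = Nat.card F + 1 := by
    intro d hd hd1 hd2
    exact arith hp (by rw [← hcard]; exact hd.mul_left 2) hd1 hd2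
  have hf1 := Even.fact_one hp'
  rw [hm] at hf1
  refine ⟨hm, ?_, ?_, ?_⟩
  · have S : Sylow (Nat.card F) PSL(2, F) := default
    refine ⟨S, ?_⟩
    have := S.card_eq_multiplicity
    rwa [hf1, pow_one] at this
  · intro A B hA hB
    let SA : Sylow (Nat.card F) PSL(2, F) := Sylow.ofCard A (by rw [hf1, pow_one, hA])
    let SB : Sylow (Nat.card F) PSL(2, F) := Sylow.ofCard B (by rw [hf1, pow_one, hB])
    obtain ⟨g, hg⟩ := MulAction.exists_smul_eq PSL(2, F) SA SB
    refine ⟨g, ?_⟩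
    have h1 : ((g • SA : Sylow (Nat.card F) PSL(2, F)) : Subgroup PSL(2, F)) =
        MulAut.conj g • (SA : Subgroup PSL(2, F)) := Sylow.coe_subgroup_smul
    rw [hg] at h1
    exact h1
  · intro A
    rw [← hm]
    refine Even.criterion hp' hG ?_ A
    rw [hm]
    intro d hd hd1 hd2 hd3
    have h1 := hdvd d hd hd1 hd2
    have S : Sylow (Nat.card F) PSL(2, F) := default
    have h2 := hdvd _ (S.card_dvd_index.trans (Subgroup.index_dvd_card _))
      (card_sylow_modEq_one _ _) (hd2.trans hd3)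
    omega

end Pool.Agent.MP_4ddb19_al.Small
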