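import Pool.Agent.Lib.MP_4ddb19_al.Even

/-!
# Subgroups of index `q` of `PSL_2(q)`, `q = 5, 7, 11`
-/

namespace Pool.Agent.MP_4ddb19_al.Small

open Subgroup MulAction Pool.Agent.MP_4ddb19_al
open scoped MatrixGroups LinearAlgebra.Projectivization Pointwise

/-- Four entries of a matrix, as natural numbers. -/
abbrev T := ℕ × ℕ × ℕ × ℕ

/-- Product of two matrices modulo `q`. -/
def tm (q : ℕ) (x y : T) : T :=
  ((x.1 * y.1 + x.2.1 * y.2.2.1) % q, (x.1 * y.2.1 + x.2.1 * y.2.2.2) % q,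
    (x.2.2.1 * y.1 + x.2.2.2 * y.2.2.1) % q, (x.2.2.1 * y.2.1 + x.2.2.2 * y.2.2.2) % q)

variable {q : ℕ} [Fact q.Prime]

/-- The entries of a matrix. -/
def en (M : SL(2, ZMod q)) : T := ((M 0 0).val, (M 0 1).val, (M 1 0).val, (M 1 1).val)

lemma mul_ent (M N : SL(2, ZMod q)) (i j : Fin 2) :
    (M * N) i j = M i 0 * N 0 j + M i 1 * N 1 j := by
  change ((M : Matrix (Fin 2) (Fin 2) (ZMod q)) * (N : Matrix (Fin 2) (Fin 2) (ZMod q))) i j = _
  rw [Matrix.mul_apply, Fin.sum_univ_two]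

lemma val_lem (a b c d : ZMod q) :
    (a * b + c * d).val = (a.val * b.val + c.val * d.val) % q := by
  rw [ZMod.val_add, ZMod.val_mul, ZMod.val_mul, ← Nat.add_mod]

lemma en_mul (M N : SL(2, ZMod q)) : en (M * N) = tm q (en M) (en N) := by
  unfold en tm
  rw [mul_ent, mul_ent, mul_ent, mul_ent, val_lem, val_lem, val_lem, val_lem]

lemma en_inj {M N : SL(2, ZMod q)} (h : en M = en N) : M = N := by
  unfold en at h
  rw [Prod.mk.injEq, Prod.mk.injEq, Prod.mk.injEq] at h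
  obtain ⟨h1, h2, h3, h4⟩ := h
  apply Subtype.ext
  apply Matrix.ext
  intro i j
  fin_cases i <;> fin_cases j
  · exact ZMod.val_injective q h1
  · exact ZMod.val_injective q h2
  · exact ZMod.val_injective q h3
  · exact ZMod.val_injective q h4

lemma en_one : en (1 : SL(2, ZMod q)) = (1, 0, 0, 1) := by
  have hq : 1 < q := (Fact.out : q.Prime).one_lt
  have : Fact (1 < q) := ⟨hq⟩
  have h1 : ∀ i j, (1 : SL(2, ZMod q)) i j = (1 : Matrix (Fin 2) (Fin 2) (ZMod q)) i j :=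
    fun i j => rfl
  unfold en
  rw [h1, h1, h1, h1, Matrix.one_apply_eq, Matrix.one_apply_eq, Matrix.one_apply_ne (by decide),
    Matrix.one_apply_ne (by decide), ZMod.val_one, ZMod.val_zero]

/-- The subgroup whose elements are listed in `L`. -/
def sub (L : List T) (h1 : (1, 0, 0, 1) ∈ L)
    (hm : (L.all fun x => L.all fun y => L.elem (tm q x y)) = true) : Subgroup SL(2, ZMod q) where
  carrier := {M | en M ∈ L}
  one_mem' := by
    change en 1 ∈ L
    rw [en_one]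
    exact h1
  mul_mem' := by
    intro M N hM hN
    change en (M * N) ∈ L
    rw [en_mul]
    rw [List.all_eq_true] at hm
    have h2 := hm _ hM
    rw [List.all_eq_true] at h2
    exact List.elem_iff.1 (h2 _ hN)
  inv_mem' := by
    intro M hM
    change en M⁻¹ ∈ L
    have hmul : ∀ k : ℕ, en (M ^ k) ∈ L := by
      intro k
      induction k with
      | zero =>
        rw [pow_zero, en_one]
        exact h1
      | succ k ih =>
        rw [pow_succ, en_mul]
        rw [List.all_eq_true] at hm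
        have h2 := hm _ ih
        rw [List.all_eq_true] at h2
        exact List.elem_iff.1 (h2 _ hM)
    have h3 : M ^ Nat.card SL(2, ZMod q) = 1 := pow_card_eq_one'
    have hpos : 0 < Nat.card SL(2, ZMod q) := Nat.card_pos
    obtain ⟨m, hm'⟩ : ∃ m, Nat.card SL(2, ZMod q) = m + 1 :=
      ⟨Nat.card SL(2, ZMod q) - 1, by omega⟩
    rw [hm', pow_succ] at h3
    rw [← eq_inv_of_mul_eq_one_left h3]
    exact hmul m

lemma card_sub (L : List T) (h1 : (1, 0, 0, 1) ∈ L)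
    (hm : (L.all fun x => L.all fun y => L.elem (tm q x y)) = true) (hn : L.Nodup)
    (hd : (L.all fun x => x.1 < q && x.2.1 < q && x.2.2.1 < q && x.2.2.2 < q &&
      (x.1 * x.2.2.2) % q == (x.2.1 * x.2.2.1 + 1) % q) = true) :
    Nat.card (sub (q := q) L h1 hm) = L.length := by
  rw [← Fintype.card_fin L.length, ← Nat.card_eq_fintype_card]
  apply Nat.card_congr
  symm
  have hex : ∀ x ∈ L, ∃ M : SL(2, ZMod q), en M = x := by
    intro x hx
    rw [List.all_eq_true] at hd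
    have h2 := hd x hx
    simp only [Bool.and_eq_true, decide_eq_true_eq, beq_iff_eq] at h2
    obtain ⟨⟨⟨⟨ha, hb⟩, hc⟩, hd'⟩, he⟩ := h2
    have hdet : (x.1 : ZMod q) * (x.2.2.2 : ZMod q) - (x.2.1 : ZMod q) * (x.2.2.1 : ZMod q) = 1 := by
      have h3 : ((x.1 * x.2.2.2 : ℕ) : ZMod q) = ((x.2.1 * x.2.2.1 + 1 : ℕ) : ZMod q) :=
        (ZMod.natCast_eq_natCast_iff' _ _ _).2 he
      push_cast at h3
      linear_combination h3
    refine ⟨⟨!![(x.1 : ZMod q), (x.2.1 : ZMod q); (x.2.2.1 : ZMod q), (x.2.2.2 : ZMod q)], by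
      rw [Matrix.det_fin_two_of]; exact hdet⟩, ?_⟩
    change ((x.1 : ZMod q).val, (x.2.1 : ZMod q).val, (x.2.2.1 : ZMod q).val,
      (x.2.2.2 : ZMod q).val) = x
    rw [ZMod.val_natCast_of_lt ha, ZMod.val_natCast_of_lt hb, ZMod.val_natCast_of_lt hc,
      ZMod.val_natCast_of_lt hd']
  choose! M hM using hex
  refine Equiv.ofBijective (fun i : Fin L.length => ⟨M (L.get i), ?_⟩) ⟨?_, ?_⟩
  · change en (M (L.get i)) ∈ L
    rw [hM _ (L.get_mem i)]
    exact L.get_mem i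
  · intro i j hij
    have h3 : M (L.get i) = M (L.get j) := congrArg Subtype.val hij
    have h4 := congrArg en h3
    rw [hM _ (L.get_mem i), hM _ (L.get_mem j)] at h4
    exact hn.get_inj_iff.1 h4
  · rintro ⟨N, hN⟩
    obtain ⟨i, hi⟩ := List.get_of_mem hN
    refine ⟨i, Subtype.ext (en_inj ?_)⟩
    change en (M (L.get i)) = en N
    rw [hM _ (L.get_mem i), hi]

lemma card_sl_dvd {F : Type*} [Field F] [Finite F] :
    Nat.card SL(2, F) ∣ (Nat.card F + 1) * Nat.card F * (Nat.card F - 1) := by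
  have : Fintype F := Fintype.ofFinite F
  have hq2 : 2 ≤ Nat.card F := Finite.one_lt_card
  set K : Subgroup (GL (Fin 2) F) := (Matrix.GeneralLinearGroup.det (n := Fin 2) (R := F)).ker
    with hK
  have h2 : Nat.card SL(2, F) ∣ Nat.card K := by
    have hm : ∀ x : SL(2, F), Matrix.SpecialLinearGroup.toGL x ∈ K := by
      intro x
      rw [hK, MonoidHom.mem_ker]
      ext
      simp
    refine Subgroup.card_dvd_of_injective
      ((Matrix.SpecialLinearGroup.toGL (n := Fin 2) (R := F)).codRestrict K hm) ?_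
    intro x y h
    exact Matrix.SpecialLinearGroup.toGL_injective (congrArg Subtype.val h)
  have h3 : Nat.card K * K.index = Nat.card (GL (Fin 2) F) := Subgroup.card_mul_index K
  have h4 : K.index = Nat.card F - 1 := by
    rw [hK, Subgroup.index_ker, MonoidHom.range_eq_top.2 Matrix.GeneralLinearGroup.det_surjective,
      Subgroup.card_top, Nat.card_units]
  rw [h4, Matrix.card_GL_field, Fin.prod_univ_two] at h3
  have h5 : Nat.card K = (Nat.card F + 1) * Nat.card F * (Nat.card F - 1) := by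
    have hpos : 0 < Nat.card F - 1 := by omega
    apply Nat.eq_of_mul_eq_mul_right hpos
    rw [h3]
    simp only [Fintype.card_eq_nat_card, Fin.val_zero, Fin.val_one, pow_zero, pow_one]
    obtain ⟨m, hm⟩ : ∃ m, Nat.card F = m + 1 := ⟨Nat.card F - 1, by omega⟩
    rw [hm]
    have e1 : (m + 1) ^ 2 - 1 = m * (m + 2) := by
      rw [show (m + 1) ^ 2 = m * (m + 2) + 1 by ring]
      simp
    have e2 : (m + 1) ^ 2 - (m + 1) = m * (m + 1) := by
      rw [show (m + 1) ^ 2 = m * (m + 1) + (m + 1) by ring]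
      simp
    rw [e1, e2]
    simp only [Nat.add_sub_cancel]
    ring
  rw [← h5]
  exact h2

/-- A list of `q^2 - 1` elements closed under products gives a subgroup of index `q`. -/
theorem idx_of (L : List T) (h1 : (1, 0, 0, 1) ∈ L)
    (hm : (L.all fun x => L.all fun y => L.elem (tm q x y)) = true) (hn : L.Nodup)
    (hd : (L.all fun x => x.1 < q && x.2.1 < q && x.2.2.1 < q && x.2.2.2 < q &&
      (x.1 * x.2.2.2) % q == (x.2.1 * x.2.2.1 + 1) % q) = true)
    (hl : L.length = (q + 1) * (q - 1)) (hneg : (q - 1, 0, 0, q - 1) ∈ L)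
    (hu : (1, 1, 0, 1) ∉ L) : ∃ K : Subgroup PSL(2, ZMod q), K.index = q := by
  have hq : q.Prime := Fact.out
  have hq2 := hq.two_le
  have : Fact (1 < q) := ⟨hq.one_lt⟩
  let H := sub (q := q) L h1 hm
  have hH : Nat.card H = (q + 1) * (q - 1) := by rw [card_sub L h1 hm hn hd, hl]
  have hcen : (QuotientGroup.mk' (Subgroup.center SL(2, ZMod q))).ker ≤ H := by
    rw [QuotientGroup.ker_mk']
    intro M hM
    rw [Matrix.SpecialLinearGroup.mem_center_iff] at hM
    obtain ⟨r, hr, h⟩ := hM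
    have hr2 : r * r = 1 := by
      have : r ^ 2 = 1 := by simpa using hr
      rw [← this]; ring
    have he : ∀ i j, M i j = Matrix.scalar (Fin 2) r i j := fun i j => by rw [h]
    change en M ∈ L
    have he' : en M = (r.val, 0, 0, r.val) := by
      unfold en
      rw [he, he, he, he]
      simp [Matrix.scalar_apply]
    rw [he']
    rcases mul_self_eq_one_iff.1 hr2 with h5 | h5
    · rw [h5, ZMod.val_one]
      exact h1
    · have h6 : (r : ZMod q).val = q - 1 := by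
        rw [h5, ZMod.neg_val, ZMod.val_one]
        rw [if_neg one_ne_zero]
      rw [h6]
      exact hneg
  refine ⟨H.map (QuotientGroup.mk' (Subgroup.center SL(2, ZMod q))), ?_⟩
  rw [Subgroup.index_map_eq H (QuotientGroup.mk'_surjective _) hcen]
  have hc1 : H.index * Nat.card H = Nat.card SL(2, ZMod q) := Subgroup.index_mul_card H
  have hc2 : Nat.card SL(2, ZMod q) ∣ (q + 1) * q * (q - 1) := by
    have := card_sl_dvd (F := ZMod q)
    rwa [Nat.card_zmod] at this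
  rw [← hc1, hH] at hc2
  have hpos : 0 < (q + 1) * (q - 1) := Nat.mul_pos (by omega) (by omega)
  have hc3 : H.index ∣ q := by
    apply Nat.dvd_of_mul_dvd_mul_right hpos
    rw [show q * ((q + 1) * (q - 1)) = (q + 1) * q * (q - 1) by ring]
    exact hc2
  rcases (Nat.dvd_prime hq).1 hc3 with h | h
  · exfalso
    rw [Subgroup.index_eq_one] at h
    apply hu
    have h5 : (⟨!![1, 1; 0, 1], by simp [Matrix.det_fin_two]⟩ : SL(2, ZMod q)) ∈ H := by
      rw [h]
      trivial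
    have h6 : en (⟨!![1, 1; 0, 1], by simp [Matrix.det_fin_two]⟩ : SL(2, ZMod q)) =
        (1, 1, 0, 1) := by
      change ((1 : ZMod q).val, (1 : ZMod q).val, (0 : ZMod q).val, (1 : ZMod q).val) = _
      rw [ZMod.val_one, ZMod.val_zero]
    rw [← h6]
    exact h5
  · exact h

lemma tm_assoc (q : ℕ) (x y z : T) : tm q (tm q x y) z = tm q x (tm q y z) := by
  unfold tm
  refine Prod.ext ?_ (Prod.ext ?_ (Prod.ext ?_ ?_))
  all_goals
    refine (ZMod.natCast_eq_natCast_iff' _ _ q).1 ?_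
    push_cast
    simp only [ZMod.natCast_mod]
    push_cast
    ring

/-- Closure under products from closure under right multiplication by generators, when each
element of the list is an earlier element times a generator. -/
lemma all_of_gen (q : ℕ) (L G : List T) (P : List ℕ)
    (hg : (L.all fun x => G.all fun g => L.elem (tm q x g)) = true)
    (h1 : (L.all fun x => L.elem (tm q x (L.getD 0 (1, 0, 0, 1)))) = true)
    (hw : ((List.range L.length).all fun k => k == 0 || (decide (P.getD k 0 < k) &&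
      G.any fun g => tm q (L.getD (P.getD k 0) (1, 0, 0, 1)) g == L.getD k (1, 0, 0, 1))) = true) :
    (L.all fun x => L.all fun y => L.elem (tm q x y)) = true := by
  rw [List.all_eq_true] at hg h1 hw
  have key : ∀ k, k < L.length → ∀ x ∈ L, tm q x (L.getD k (1, 0, 0, 1)) ∈ L := by
    intro k
    induction k using Nat.strong_induction_on with
    | _ k ih =>
      intro hk x hx
      have h2 := hw k (List.mem_range.2 hk)
      rw [Bool.or_eq_true, Bool.and_eq_true, decide_eq_true_eq, List.any_eq_true, beq_iff_eq] at h2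
      rcases h2 with h2 | ⟨h2, g, hgG, h3⟩
      · rw [h2]
        exact List.elem_iff.1 (h1 x hx)
      · rw [beq_iff_eq] at h3
        rw [← h3, ← tm_assoc]
        have h4 := ih _ h2 (h2.trans hk) x hx
        have h5 := hg _ h4
        rw [List.all_eq_true] at h5
        exact List.elem_iff.1 (h5 g hgG)
  rw [List.all_eq_true]
  intro x hx
  rw [List.all_eq_true]
  intro y hy
  obtain ⟨i, hi, hiy⟩ := List.getElem_of_mem hy
  have h2 := key i hi x hx
  rw [List.getD_eq_getElem _ _ hi, hiy] at h2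
  exact List.elem_iff.2 h2

/-- Elements of a subgroup of `SL_2(5)`. -/
def L5 : List T :=
  [(0, 1, 4, 0), (0, 2, 2, 0), (0, 3, 3, 0), (0, 4, 1, 0), (1, 0, 0, 1), (1, 1, 2, 3),
    (1, 2, 1, 3), (1, 3, 4, 3), (1, 4, 3, 3), (2, 0, 0, 3), (2, 1, 2, 4), (2, 2, 1, 4),
    (2, 3, 4, 4), (2, 4, 3, 4), (3, 0, 0, 2), (3, 1, 2, 1), (3, 2, 1, 1), (3, 3, 4, 1),
    (3, 4, 3, 1), (4, 0, 0, 4), (4, 1, 2, 2), (4, 2, 1, 2), (4, 3, 4, 2), (4, 4, 3, 2)]

theorem idx5 : ∃ K : Subgroup PSL(2, ZMod 5), K.index = 5 := by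
  have : Fact (Nat.Prime 5) := ⟨by norm_num⟩
  exact idx_of L5 (by decide +kernel) (by decide +kernel) (by decide +kernel)
    (by decide +kernel) (by decide +kernel) (by decide +kernel) (by decide +kernel)

/-- Elements of a subgroup of `SL_2(7)`. -/
def L7 : List T :=
  [(1, 0, 0, 1), (0, 1, 6, 1), (1, 1, 5, 6), (6, 1, 6, 0), (5, 6, 4, 5), (6, 2, 1, 4),
    (6, 0, 0, 6), (4, 5, 6, 6), (1, 4, 2, 2), (0, 6, 1, 6), (5, 1, 3, 5), (2, 4, 0, 4),
    (6, 6, 2, 1), (2, 2, 1, 5), (1, 6, 1, 0), (3, 5, 5, 4), (0, 4, 5, 0), (2, 1, 3, 2),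
    (3, 4, 0, 5), (3, 6, 3, 4), (1, 5, 6, 3), (5, 4, 2, 6), (5, 0, 5, 3), (3, 2, 1, 1),
    (0, 5, 4, 1), (6, 3, 5, 5), (3, 0, 2, 5), (2, 6, 4, 2), (1, 2, 3, 0), (5, 3, 0, 3),
    (4, 1, 4, 3), (5, 5, 6, 2), (2, 5, 6, 5), (4, 2, 2, 3), (0, 3, 2, 0), (3, 3, 6, 4),
    (4, 3, 0, 2), (4, 6, 3, 3), (6, 5, 4, 0), (2, 3, 5, 1), (2, 0, 2, 4), (6, 4, 3, 1),
    (0, 2, 3, 6), (4, 0, 5, 2), (1, 3, 4, 6), (3, 1, 4, 4), (5, 2, 1, 2), (4, 4, 1, 3)]

/-- Generators. -/
def G7 : List T := [(0, 1, 6, 1), (1, 1, 5, 6)]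

/-- Each element of the list is the one at this earlier place times a generator. -/
def P7 : List ℕ :=
  [0, 0, 0, 1, 1, 2, 2, 3, 4, 4, 5, 5, 6, 7, 7, 8, 8, 9, 10, 11, 11, 13, 13, 14, 15, 16, 18, 18,
    19, 20, 21, 22, 24, 24, 25, 26, 27, 28, 30, 30, 31, 32, 33, 35, 37, 38, 41, 43]

lemma all7 : (L7.all fun x => L7.all fun y => L7.elem (tm 7 x y)) = true :=
  all_of_gen 7 L7 G7 P7 (by decide +kernel) (by decide +kernel) (by decide +kernel)

theorem idx7 : ∃ K : Subgroup PSL(2, ZMod 7), K.index = 7 := by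
  have : Fact (Nat.Prime 7) := ⟨by norm_num⟩
  exact idx_of L7 (by decide +kernel) all7 (by decide +kernel)
    (by decide +kernel) (by decide +kernel) (by decide +kernel) (by decide +kernel)

/-- Elements of a subgroup of `SL_2(11)`. -/
def L11 : List T :=
  [(1, 0, 0, 1), (0, 1, 10, 0), (0, 2, 5, 10), (10, 0, 0, 10), (5, 10, 0, 9), (9, 0, 1, 5),
    (10, 9, 6, 0), (0, 10, 1, 0), (0, 9, 6, 1), (1, 5, 2, 0), (6, 0, 1, 2), (0, 7, 3, 8),
    (2, 10, 0, 6), (6, 1, 0, 2), (2, 0, 10, 6), (1, 2, 5, 0), (3, 8, 0, 4), (0, 6, 9, 1),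
    (4, 0, 3, 3), (2, 4, 7, 9), (6, 5, 8, 5), (10, 6, 9, 0), (5, 0, 10, 9), (0, 4, 8, 3),
    (9, 1, 0, 5), (3, 3, 7, 0), (7, 9, 9, 7), (8, 5, 5, 6), (0, 8, 4, 3), (7, 2, 2, 7),
    (6, 6, 6, 8), (3, 7, 3, 0), (8, 3, 0, 7), (0, 5, 2, 10), (7, 0, 8, 8), (9, 7, 4, 2),
    (5, 6, 3, 6), (4, 3, 0, 3), (2, 7, 4, 9), (6, 8, 5, 5), (3, 0, 8, 4), (7, 3, 4, 5),
    (10, 1, 2, 8), (8, 6, 7, 4), (8, 8, 4, 0), (4, 2, 2, 4), (3, 6, 6, 5), (0, 3, 7, 8),
    (4, 9, 9, 4), (5, 5, 5, 3), (8, 4, 8, 0), (4, 5, 4, 8), (2, 8, 1, 10), (7, 4, 3, 5),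
    (8, 7, 6, 4), (10, 10, 3, 2), (5, 8, 7, 7), (8, 10, 9, 10), (7, 8, 0, 8), (9, 4, 7, 2),
    (5, 3, 6, 6), (8, 0, 3, 7), (4, 8, 7, 6), (1, 10, 9, 3), (3, 5, 4, 7), (6, 4, 3, 4),
    (3, 2, 1, 1), (7, 7, 6, 3), (9, 10, 3, 1), (2, 9, 9, 8), (6, 10, 10, 4), (1, 8, 1, 9),
    (7, 6, 7, 3), (9, 3, 10, 1), (4, 7, 8, 6), (3, 4, 5, 7), (1, 1, 8, 9), (6, 3, 4, 4),
    (3, 1, 2, 1), (9, 8, 9, 2), (10, 4, 5, 1), (1, 9, 10, 3), (2, 2, 3, 9), (1, 6, 7, 10),
    (6, 2, 9, 5), (7, 5, 1, 4), (5, 7, 8, 7), (8, 9, 10, 10), (4, 4, 5, 8), (2, 1, 8, 10),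
    (9, 2, 2, 3), (5, 1, 1, 7), (10, 3, 10, 2), (3, 9, 9, 9), (7, 10, 10, 5), (9, 5, 5, 9),
    (1, 4, 4, 6), (10, 2, 1, 8), (9, 6, 6, 9), (6, 7, 7, 1), (2, 3, 2, 9), (1, 7, 6, 10),
    (9, 9, 8, 2), (10, 5, 4, 1), (5, 9, 2, 6), (4, 6, 10, 7), (6, 9, 2, 5), (7, 1, 5, 4),
    (10, 7, 7, 5), (8, 1, 1, 3), (2, 5, 5, 2), (8, 2, 2, 2), (4, 1, 1, 6), (2, 6, 6, 2),
    (5, 4, 4, 10), (1, 3, 3, 10), (5, 2, 9, 6), (4, 10, 6, 7), (10, 8, 8, 1), (3, 10, 10, 8)]

/-- Generators. -/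
def G11 : List T := [(0, 1, 10, 0), (0, 2, 5, 10)]

/-- Each element of the list is the one at this earlier place times a generator. -/
def P11 : List ℕ :=
  [0, 0, 0, 1, 1, 2, 2, 3, 3, 4, 4, 5, 6, 7, 8, 8, 9, 10, 11, 11, 12, 13, 13, 14, 15, 16, 16, 17,
    18, 19, 20, 20, 21, 22, 23, 23, 24, 25, 26, 27, 27, 28, 29, 30, 32, 32, 33, 34, 35, 36, 36,
    37, 38, 39, 41, 42, 42, 43, 44, 45, 46, 46, 47, 48, 49, 51, 52, 52, 53, 54, 55, 57, 58, 59,
    60, 62, 63, 63, 64, 65, 66, 68, 69, 69, 70, 71, 72, 73, 73, 74, 75, 76, 78, 79, 79, 80, 81,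
    82, 84, 85, 86, 87, 90, 90, 91, 92, 95, 96, 97, 98, 99, 100, 100, 101, 105, 106, 107, 108,
    109, 110]

lemma all11 : (L11.all fun x => L11.all fun y => L11.elem (tm 11 x y)) = true :=
  all_of_gen 11 L11 G11 P11 (by decide +kernel) (by decide +kernel) (by decide +kernel)

theorem idx11 : ∃ K : Subgroup PSL(2, ZMod 11), K.index = 11 := by
  have : Fact (Nat.Prime 11) := ⟨by norm_num⟩
  exact idx_of L11 (by decide +kernel) all11 (by decide +kernel)
    (by decide +kernel) (by decide +kernel) (by decide +kernel) (by decide +kernel)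

end Pool.Agent.MP_4ddb19_al.Small
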