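import Pool.Agent.Lib.MP_4ddb19_al.Even
import Pool.Agent.Lib.MP_4ddb19_al.Odd

/-!
# MP_4ddb19_al: a subgroup of index 6 of `PSL_2(9)`
-/

namespace Pool.Agent.MP_4ddb19_al.Small.N9

open Subgroup MulAction Pool.Agent.MP_4ddb19_al
open scoped MatrixGroups LinearAlgebra.Projectivization Pointwise

set_option linter.unusedSectionVars false

/-- codes of the elements `a + b i` of the field with 9 elements -/
abbrev K9 := ZMod 3 × ZMod 3

/-- codes of 2 x 2 matrices -/
abbrev T9 := K9 × K9 × K9 × K9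

def m9 (x y : K9) : K9 := (x.1 * y.1 - x.2 * y.2, x.1 * y.2 + x.2 * y.1)

def m4 (s t : T9) : T9 :=
  (m9 s.1 t.1 + m9 s.2.1 t.2.2.1, m9 s.1 t.2.1 + m9 s.2.1 t.2.2.2,
    m9 s.2.2.1 t.1 + m9 s.2.2.2 t.2.2.1, m9 s.2.2.1 t.2.1 + m9 s.2.2.2 t.2.2.2)

def d4 (s : T9) : K9 := m9 s.1 s.2.2.2 - m9 s.2.1 s.2.2.1

def gA : T9 := ((0, 0), (0, 1), (0, 1), (0, 0))
def gB : T9 := ((0, 1), (0, 1), (1, 0), (1, 2))
def gA' : T9 := ((0, 0), (0, 2), (0, 2), (0, 0))
def gB' : T9 := ((1, 2), (0, 2), (2, 0), (0, 1))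

def L9 : List T9 := [
    ((1, 0), (0, 0), (0, 0), (1, 0)), ((0, 0), (0, 1), (0, 1), (0, 0)),
    ((0, 1), (0, 1), (1, 0), (1, 2)), ((0, 1), (1, 1), (2, 0), (2, 0)),
    ((1, 0), (1, 0), (2, 2), (0, 2)), ((1, 2), (0, 2), (2, 0), (0, 1)),
    ((1, 2), (1, 0), (0, 1), (0, 1)), ((0, 1), (1, 0), (2, 2), (2, 0)),
    ((1, 1), (1, 0), (1, 1), (0, 1)), ((1, 0), (1, 1), (2, 0), (0, 2)),
    ((1, 2), (1, 0), (1, 2), (0, 2)), ((0, 1), (2, 0), (0, 2), (1, 2)),
    ((0, 1), (2, 1), (2, 0), (2, 1)), ((0, 1), (0, 0), (2, 2), (0, 2)),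
    ((1, 2), (2, 1), (0, 1), (2, 1)), ((0, 1), (1, 1), (1, 0), (1, 1)),
    ((1, 2), (1, 0), (2, 0), (0, 0)), ((1, 0), (1, 1), (2, 2), (1, 1)),
    ((1, 1), (2, 2), (2, 0), (0, 1)), ((0, 0), (1, 0), (2, 0), (2, 1)),
    ((1, 1), (2, 2), (1, 1), (1, 0)), ((0, 1), (2, 0), (2, 2), (1, 1)),
    ((0, 1), (1, 0), (1, 2), (2, 1)), ((0, 1), (1, 1), (0, 0), (0, 2)),
    ((1, 2), (0, 2), (1, 2), (2, 1)), ((1, 2), (2, 1), (2, 0), (0, 2)),
    ((1, 0), (0, 1), (0, 0), (1, 0)), ((1, 0), (1, 2), (2, 0), (0, 1)),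
    ((1, 0), (0, 1), (0, 1), (0, 0)), ((0, 0), (0, 1), (0, 1), (2, 0)),
    ((0, 1), (1, 0), (0, 2), (2, 2)), ((1, 0), (0, 0), (0, 2), (1, 0)),
    ((1, 0), (0, 2), (0, 2), (0, 0)), ((1, 1), (0, 1), (2, 0), (0, 2)),
    ((1, 0), (0, 2), (0, 0), (1, 0)), ((0, 1), (2, 1), (1, 0), (1, 0)),
    ((1, 0), (0, 0), (0, 1), (1, 0)), ((0, 1), (2, 0), (1, 2), (1, 0)),
    ((0, 0), (0, 1), (0, 1), (1, 0)), ((0, 1), (0, 1), (2, 0), (2, 2)),
    ((0, 0), (1, 0), (2, 0), (2, 0)), ((1, 1), (0, 1), (0, 2), (1, 2)),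
    ((1, 1), (1, 0), (0, 2), (0, 2)), ((0, 1), (0, 1), (0, 0), (0, 2)),
    ((1, 0), (1, 1), (2, 1), (2, 0)), ((1, 0), (1, 0), (2, 1), (0, 1)),
    ((0, 1), (0, 0), (0, 2), (0, 2)), ((1, 0), (1, 2), (2, 2), (2, 0)),
    ((1, 1), (0, 1), (1, 1), (2, 2)), ((0, 1), (0, 0), (1, 2), (0, 2)),
    ((1, 0), (1, 0), (2, 0), (0, 0)), ((1, 2), (0, 2), (0, 1), (1, 1)),
    ((1, 2), (2, 1), (1, 2), (1, 0)), ((1, 1), (1, 0), (2, 0), (0, 0)),
    ((1, 0), (1, 2), (2, 1), (1, 2)), ((0, 0), (1, 0), (2, 0), (2, 2)),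
    ((1, 1), (2, 2), (0, 2), (2, 2)), ((0, 1), (2, 1), (0, 0), (0, 2)),
    ((1, 0), (0, 2), (0, 1), (2, 0)), ((1, 0), (0, 1), (0, 2), (2, 0))]

def P9 : List ℕ := [
    0, 0, 0, 1, 2, 2, 3, 3, 4, 5, 6, 7, 8, 8, 9, 10, 10, 11, 12, 13,
    14, 14, 15, 16, 17, 17, 18, 19, 20, 22, 23, 24, 26, 27, 27, 28, 29, 30, 30, 31,
    32, 33, 35, 36, 37, 39, 40, 40, 41, 42, 43, 43, 44, 45, 48, 49, 52, 53, 54, 56]

def l9 (k : ℕ) : T9 := L9.getD k gA

def p9 (k : ℕ) : ℕ := P9.getD k 0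

def same (s t : T9) : Bool := decide (s = t) || decide (s = -t)

lemma same_iff {s t : T9} : same s t = true ↔ s = t ∨ s = -t := by
  simp [same]

lemma det9 : ∀ k < 60, d4 (l9 k) = (1, 0) := by decide +kernel

lemma detg : d4 gA = (1, 0) ∧ d4 gB = (1, 0) ∧ d4 gA' = (1, 0) ∧ d4 gB' = (1, 0) := by
  decide +kernel

lemma invg : m4 gA gA' = ((1, 0), (0, 0), (0, 0), (1, 0)) ∧
    m4 gB gB' = ((1, 0), (0, 0), (0, 0), (1, 0)) := by decide +kernel

lemma zero9 : l9 0 = ((1, 0), (0, 0), (0, 0), (1, 0)) := by decide +kernel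

lemma closA : ∀ k < 60, ∃ j < 60, same (m4 (l9 k) gA) (l9 j) = true := by
  decide +kernel
lemma closB : ∀ k < 60, ∃ j < 60, same (m4 (l9 k) gB) (l9 j) = true := by
  decide +kernel
lemma closA' : ∀ k < 60, ∃ j < 60, same (m4 (l9 k) gA') (l9 j) = true := by
  decide +kernel
lemma closB' : ∀ k < 60, ∃ j < 60, same (m4 (l9 k) gB') (l9 j) = true := by
  decide +kernel

lemma par9 : ∀ k < 60, k = 0 ∨ (p9 k < k ∧
    (same (l9 k) (m4 (l9 (p9 k)) gA) || same (l9 k) (m4 (l9 (p9 k)) gB)) = true) := by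
  decide +kernel

lemma dist9 : ∀ k < 60, ∀ j < 60, j ≠ k → same (l9 j) (l9 k) = false := by decide +kernel

section nine

variable {F : Type*} [Field F] [CharP F 3] (i : F)

/-- the element with the code `x` -/
def ph (x : K9) : F := ZMod.castHom (dvd_refl 3) F x.1 + ZMod.castHom (dvd_refl 3) F x.2 * i

lemma ph_mul (hi : i * i = -1) (x y : K9) : ph i (m9 x y) = ph i x * ph i y := by
  simp only [ph, m9, map_sub, map_add, map_mul]
  linear_combination
    (-(ZMod.castHom (dvd_refl 3) F x.2 * ZMod.castHom (dvd_refl 3) F y.2)) * hi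

lemma ph_add (x y : K9) : ph i (x + y) = ph i x + ph i y := by
  simp only [ph, Prod.fst_add, Prod.snd_add, map_add]
  ring

lemma ph_neg (x : K9) : ph i (-x) = -ph i x := by
  simp only [ph, Prod.fst_neg, Prod.snd_neg, map_neg]
  ring

lemma ph_sub (x y : K9) : ph i (x - y) = ph i x - ph i y := by
  simp only [ph, Prod.fst_sub, Prod.snd_sub, map_sub]
  ring

lemma ph_one : ph i (1, 0) = 1 := by simp [ph]

lemma ph_zero : ph i (0, 0) = 0 := by simp [ph]

lemma sq3 : ∀ a b : ZMod 3, a * a + b * b = 0 → a = 0 ∧ b = 0 := by decide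

lemma ph_inj (hi : i * i = -1) {x y : K9} (h : ph i x = ph i y) : x = y := by
  have hinj := ZMod.castHom_injective (n := 3) F
  have h1 : ZMod.castHom (dvd_refl 3) F
      ((x.1 - y.1) * (x.1 - y.1) + (x.2 - y.2) * (x.2 - y.2)) = 0 := by
    simp only [ph] at h
    simp only [map_add, map_mul, map_sub]
    set c := ZMod.castHom (dvd_refl 3) F
    have h2 : c x.1 - c y.1 = -((c x.2 - c y.2) * i) := by linear_combination h
    rw [h2]
    linear_combination ((c x.2 - c y.2) * (c x.2 - c y.2)) * hi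
  have h2 := sq3 _ _ (hinj (h1.trans (map_zero _).symm))
  exact Prod.ext (sub_eq_zero.1 h2.1) (sub_eq_zero.1 h2.2)

lemma d4_mul {s t : T9} (hs : d4 s = (1, 0)) (ht : d4 t = (1, 0)) : d4 (m4 s t) = (1, 0) := by
  have key : d4 (m4 s t) = m9 (d4 s) (d4 t) := by
    ext
    · simp only [d4, m4, m9, Prod.fst_sub, Prod.snd_sub, Prod.fst_add, Prod.snd_add]
      ring
    · simp only [d4, m4, m9, Prod.fst_sub, Prod.snd_sub, Prod.fst_add, Prod.snd_add]
      ring
  rw [key, hs, ht]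
  decide

lemma d4_neg {s : T9} (hs : d4 s = (1, 0)) : d4 (-s) = (1, 0) := by
  have key : d4 (-s) = d4 s := by
    ext
    · simp only [d4, m9, Prod.fst_sub, Prod.fst_neg, Prod.snd_neg]
      ring
    · simp only [d4, m9, Prod.snd_sub, Prod.fst_neg, Prod.snd_neg]
      ring
  rw [key, hs]

variable (hi : i * i = -1)
include hi

/-- the matrix with the code `s` -/
def g4 (s : T9) (hs : d4 s = (1, 0)) : SL(2, F) :=
  ⟨!![ph i s.1, ph i s.2.1; ph i s.2.2.1, ph i s.2.2.2], by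
    have h : m9 s.1 s.2.2.2 - m9 s.2.1 s.2.2.1 = (1, 0) := hs
    rw [Matrix.det_fin_two_of, ← ph_mul i hi, ← ph_mul i hi, ← ph_sub, h, ph_one]⟩

/-- its image in `PSL_2(9)` -/
def f4 (s : T9) (hs : d4 s = (1, 0)) : PSL(2, F) := (g4 i hi s hs : PSL(2, F))

lemma f4_mul {s t : T9} (hs : d4 s = (1, 0)) (ht : d4 t = (1, 0)) (h : d4 (m4 s t) = (1, 0)) :
    f4 i hi (m4 s t) h = f4 i hi s hs * f4 i hi t ht := by
  have h1 : g4 i hi (m4 s t) h = g4 i hi s hs * g4 i hi t ht := by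
    apply Subtype.ext
    change !![ph i (m4 s t).1, ph i (m4 s t).2.1; ph i (m4 s t).2.2.1, ph i (m4 s t).2.2.2] =
      !![ph i s.1, ph i s.2.1; ph i s.2.2.1, ph i s.2.2.2] *
        !![ph i t.1, ph i t.2.1; ph i t.2.2.1, ph i t.2.2.2]
    rw [Matrix.mul_fin_two]
    simp only [m4, ph_add, ph_mul i hi]
  unfold f4
  rw [h1]
  rfl

lemma f4_iff {s t : T9} (hs : d4 s = (1, 0)) (ht : d4 t = (1, 0)) :
    f4 i hi s hs = f4 i hi t ht ↔ same s t = true := by
  have e : ∀ (s : T9) (hs : d4 s = (1, 0)), (g4 i hi s hs) 0 0 = ph i s.1 ∧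
      (g4 i hi s hs) 0 1 = ph i s.2.1 ∧ (g4 i hi s hs) 1 0 = ph i s.2.2.1 ∧
      (g4 i hi s hs) 1 1 = ph i s.2.2.2 := fun s hs => ⟨rfl, rfl, rfl, rfl⟩
  unfold f4
  rw [Odd.coe_eq, same_iff]
  obtain ⟨s1, s2, s3, s4⟩ := e s hs
  obtain ⟨t1, t2, t3, t4⟩ := e t ht
  constructor
  · rintro (h | h)
    · left
      have h1 := h 0 0
      have h2 := h 0 1
      have h3 := h 1 0
      have h4 := h 1 1
      rw [s1, t1] at h1
      rw [s2, t2] at h2
      rw [s3, t3] at h3
      rw [s4, t4] at h4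
      exact Prod.ext (ph_inj i hi h1).symm (Prod.ext (ph_inj i hi h2).symm
        (Prod.ext (ph_inj i hi h3).symm (ph_inj i hi h4).symm))
    · right
      have h1 := h 0 0
      have h2 := h 0 1
      have h3 := h 1 0
      have h4 := h 1 1
      rw [s1, t1, ← ph_neg] at h1
      rw [s2, t2, ← ph_neg] at h2
      rw [s3, t3, ← ph_neg] at h3
      rw [s4, t4, ← ph_neg] at h4
      have k1 := ph_inj i hi h1
      have k2 := ph_inj i hi h2
      have k3 := ph_inj i hi h3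
      have k4 := ph_inj i hi h4
      have : t = -s := Prod.ext k1 (Prod.ext k2 (Prod.ext k3 k4))
      rw [this, neg_neg]
  · rintro (h | h)
    · left
      subst h
      exact fun a b => rfl
    · right
      have h' : t = -s := by rw [h, neg_neg]
      subst h'
      intro a b
      fin_cases a <;> fin_cases b
      · change (g4 i hi (-s) ht) 0 0 = -(g4 i hi s hs) 0 0
        rw [s1, t1, ← ph_neg]
        rfl
      · change (g4 i hi (-s) ht) 0 1 = -(g4 i hi s hs) 0 1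
        rw [s2, t2, ← ph_neg]
        rfl
      · change (g4 i hi (-s) ht) 1 0 = -(g4 i hi s hs) 1 0
        rw [s3, t3, ← ph_neg]
        rfl
      · change (g4 i hi (-s) ht) 1 1 = -(g4 i hi s hs) 1 1
        rw [s4, t4, ← ph_neg]
        rfl

lemma f4_one (h : d4 ((1, 0), (0, 0), (0, 0), (1, 0)) = (1, 0)) :
    f4 i hi ((1, 0), (0, 0), (0, 0), (1, 0)) h = 1 := by
  have h1 : g4 i hi ((1, 0), (0, 0), (0, 0), (1, 0)) h = 1 := by
    apply Subtype.ext
    change !![ph i (1, 0), ph i (0, 0); ph i (0, 0), ph i (1, 0)] = (1 : Matrix _ _ F)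
    rw [ph_one, ph_zero, Matrix.one_fin_two]
  unfold f4
  rw [h1]
  rfl

/-- the alternating group of degree 5 in `PSL_2(9)` -/
theorem exists_sub [Finite F] (hG : 60 < Nat.card PSL(2, F)) :
    ∃ H : Subgroup PSL(2, F), H ≠ ⊤ ∧ 60 ≤ Nat.card H := by
  have hfin : Finite PSL(2, F) := by
    unfold Matrix.ProjectiveSpecialLinearGroup
    infer_instance
  obtain ⟨dA, dB, dA', dB'⟩ := detg
  obtain ⟨iA, iB⟩ := invg
  let e : Fin 60 → PSL(2, F) := fun k => f4 i hi (l9 k) (det9 k k.2)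
  let a := f4 i hi gA dA
  let b := f4 i hi gB dB
  have ha : a⁻¹ = f4 i hi gA' dA' := by
    rw [inv_eq_iff_mul_eq_one, ← f4_mul i hi dA dA' (d4_mul dA dA'),
      ← f4_one i hi (by decide)]
    exact (f4_iff i hi _ _).2 (by rw [same_iff]; left; exact iA)
  have hb : b⁻¹ = f4 i hi gB' dB' := by
    rw [inv_eq_iff_mul_eq_one, ← f4_mul i hi dB dB' (d4_mul dB dB'),
      ← f4_one i hi (by decide)]
    exact (f4_iff i hi _ _).2 (by rw [same_iff]; left; exact iB)
  have clos : ∀ (g : T9) (hg : d4 g = (1, 0)),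
      (∀ k < 60, ∃ j < 60, same (m4 (l9 k) g) (l9 j) = true) →
      ∀ k : Fin 60, ∃ j : Fin 60, e k * f4 i hi g hg = e j := by
    intro g hg h k
    obtain ⟨j, hj, hjk⟩ := h k k.2
    refine ⟨⟨j, hj⟩, ?_⟩
    change f4 i hi (l9 k) (det9 k k.2) * f4 i hi g hg = f4 i hi (l9 j) (det9 j hj)
    rw [← f4_mul i hi (det9 k k.2) hg (d4_mul (det9 k k.2) hg)]
    exact (f4_iff i hi _ _).2 hjk
  have e0 : e 0 = 1 := by
    change f4 i hi (l9 0) (det9 0 (by norm_num)) = 1
    rw [← f4_one i hi (by decide)]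
    exact (f4_iff i hi _ _).2 (by rw [same_iff]; left; exact zero9)
  let H : Subgroup PSL(2, F) := Subgroup.closure {a, b}
  have h1 : ∀ h ∈ H, ∃ k : Fin 60, h = e k := by
    intro h hh
    induction hh using Subgroup.closure_induction_right with
    | one => exact ⟨0, e0.symm⟩
    | mul_right x hx y hy ih =>
      obtain ⟨k, rfl⟩ := ih
      rcases hy with rfl | rfl
      · obtain ⟨j, hj⟩ := clos gA dA closA k
        exact ⟨j, hj⟩
      · obtain ⟨j, hj⟩ := clos gB dB closB k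
        exact ⟨j, hj⟩
    | mul_inv_cancel x hx y hy ih =>
      obtain ⟨k, rfl⟩ := ih
      rcases hy with rfl | rfl
      · obtain ⟨j, hj⟩ := clos gA' dA' closA' k
        exact ⟨j, by rw [ha]; exact hj⟩
      · obtain ⟨j, hj⟩ := clos gB' dB' closB' k
        exact ⟨j, by rw [hb]; exact hj⟩
  have h2 : ∀ n : ℕ, ∀ hn : n < 60, f4 i hi (l9 n) (det9 n hn) ∈ H := by
    intro n
    induction n using Nat.strong_induction_on with
    | _ n ih =>
      intro hn
      rcases par9 n hn with rfl | ⟨hp, hs⟩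
      · have := e0
        change f4 i hi (l9 0) (det9 0 hn) = 1 at this
        rw [this]
        exact one_mem _
      · have hm := ih (p9 n) hp (hp.trans hn)
        have hd := det9 (p9 n) (hp.trans hn)
        rw [Bool.or_eq_true] at hs
        rcases hs with hs | hs
        · have : f4 i hi (l9 n) (det9 n hn) = f4 i hi (l9 (p9 n)) hd * a := by
            rw [← f4_mul i hi hd dA (d4_mul hd dA)]
            exact (f4_iff i hi _ _).2 hs
          rw [this]
          exact mul_mem hm (Subgroup.subset_closure (by simp))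
        · have : f4 i hi (l9 n) (det9 n hn) = f4 i hi (l9 (p9 n)) hd * b := by
            rw [← f4_mul i hi hd dB (d4_mul hd dB)]
            exact (f4_iff i hi _ _).2 hs
          rw [this]
          exact mul_mem hm (Subgroup.subset_closure (by simp))
  refine ⟨H, ?_, ?_⟩
  · intro h
    have h3 : Function.Surjective e := by
      intro g
      obtain ⟨k, hk⟩ := h1 g (by rw [h]; trivial)
      exact ⟨k, hk.symm⟩
    have h4 := Nat.card_le_card_of_surjective e h3
    rw [Nat.card_fin] at h4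
    omega
  · have h3 : Function.Injective (fun k : Fin 60 => (⟨e k, h2 k k.2⟩ : H)) := by
      intro j k hjk
      by_contra hne
      have h4 : e j = e k := congrArg Subtype.val hjk
      have h5 := (f4_iff i hi (det9 j j.2) (det9 k k.2)).1 h4
      have h6 := dist9 k k.2 j j.2 (fun h => hne (Fin.ext h))
      rw [h5] at h6
      exact absurd h6 (by decide)
    have h4 := Nat.card_le_card_of_injective _ h3
    rwa [Nat.card_fin] at h4

end nine

section final

variable (F : Type) [Field F] [Finite F]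

theorem nine_card (hF : Nat.card F = 9) : Nat.card PSL(2, F) = 360 := by
  have h2 : (2 : F) ≠ 0 := Odd.two_ne (by omega)
  have hsq : IsSquare (-1 : F) := by
    have : Fintype F := Fintype.ofFinite F
    rw [FiniteField.isSquare_neg_one_iff, ← Nat.card_eq_fintype_card]
    omega
  have hfin : Finite PSL(2, F) := by
    unfold Matrix.ProjectiveSpecialLinearGroup
    infer_instance
  have hb := Odd.obend h2 hsq (by omega)
  have h := Odd.card_G hb (Odd.inf F)
  rw [hF] at h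
  omega

/-- `PSL_2(9)` has a subgroup of index 6. -/
theorem index_six (hF : Nat.card F = 9) : ∃ K : Subgroup PSL(2, F), K.index = 6 := by
  have hfin : Finite PSL(2, F) := by
    unfold Matrix.ProjectiveSpecialLinearGroup
    infer_instance
  have hs : IsSimpleGroup PSL(2, F) :=
    Matrix.ProjectiveSpecialLinearGroup.rank_two_simple (by omega)
  have hG := nine_card F hF
  have hsq : IsSquare (-1 : F) := by
    have : Fintype F := Fintype.ofFinite F
    rw [FiniteField.isSquare_neg_one_iff, ← Nat.card_eq_fintype_card]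
    omega
  obtain ⟨i, hi⟩ := hsq
  have hch : CharP F 3 := by
    have : Fintype F := Fintype.ofFinite F
    obtain ⟨p, hp⟩ := CharP.exists F
    have hpp := CharP.char_is_prime F p
    have hf : Fact p.Prime := ⟨hpp⟩
    obtain ⟨n, hn, hcard⟩ := FiniteField.card F p
    rw [← Nat.card_eq_fintype_card, hF] at hcard
    have h3 : p ∣ 9 := by
      rw [hcard]
      exact dvd_pow_self p (by exact_mod_cast n.ne_zero)
    have h4 : p ∣ 3 := (hpp.dvd_of_dvd_pow (show p ∣ 3 ^ 2 by norm_num; exact h3))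
    have h5 : p = 3 := (Nat.prime_dvd_prime_iff_eq hpp Nat.prime_three).1 h4
    exact h5 ▸ hp
  obtain ⟨H, hH, hc⟩ := exists_sub i hi.symm (by omega)
  have h1 : Nat.card H * H.index = 360 := by rw [Subgroup.card_mul_index, hG]
  have h2 : H.index ≤ 6 := by
    by_contra hcon
    push Not at hcon
    nlinarith
  refine ⟨H, le_antisymm h2 ?_⟩
  have h3 := Even.card_dvd_factorial H hH
  rw [hG] at h3
  by_contra hcon
  push Not at hcon
  have h4 : H.index < 6 := hcon
  interval_cases H.index <;> revert h3 <;> decide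

end final

end Pool.Agent.MP_4ddb19_al.Small.N9

namespace Pool.Agent.MP_4ddb19_al.Small

open scoped MatrixGroups

/-- `PSL_2(9)` has a subgroup of index 6. -/
theorem idx9 (F : Type) [Field F] [Finite F] (h : Nat.card F = 9) :
    ∃ K : Subgroup PSL(2, F), K.index = 6 :=
  N9.index_six F h

end Pool.Agent.MP_4ddb19_al.Small
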