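import Pool.Agent.Lib.MP_4ddb19_al.Even
import Pool.Agent.Lib.MP_4ddb19_al.Odd

/-!
# `PSL_2(9)`: `n(G) = 6` and S(G) is empty

From one subgroup of index 6 and the nonexistence of simple groups `A` with `n(A) = 6` of order
at most 60 dividing 360.
-/

namespace Pool.Agent.MP_4ddb19_al.Small

open Subgroup MulAction Pool.Agent.MP_4ddb19_al
open scoped MatrixGroups LinearAlgebra.Projectivization Pointwise

theorem nine {F : Type} [Field F] [Finite F] (h9 : Nat.card F = 9)
    (hK : ∃ K : Subgroup PSL(2, F), K.index = 6)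
    (no60 : ∀ (A : Type) [Group A] [Finite A] [IsSimpleGroup A], minIndex A = 6 →
      Nat.card A ∣ 360 → Nat.card A ≤ 60 → 6 ∣ Nat.card A → False) :
    minIndex PSL(2, F) = 6 ∧ ∀ A : Subgroup PSL(2, F), ¬ InS A := by
  have hF : 4 ≤ Nat.card F := by omega
  have hfin : Finite PSL(2, F) := Even.finite_psl
  have hs : IsSimpleGroup PSL(2, F) := Matrix.ProjectiveSpecialLinearGroup.rank_two_simple hF
  have h2 : (2 : F) ≠ 0 := Odd.two_ne (by omega)
  have hi : IsSquare (-1 : F) := by
    have : Fintype F := Fintype.ofFinite F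
    rw [FiniteField.isSquare_neg_one_iff, ← Nat.card_eq_fintype_card]
    omega
  have hG : Nat.card PSL(2, F) = 360 := by
    have := Odd.card_G (Odd.obend h2 hi (by omega)) (Odd.inf F)
    rw [h9] at this
    omega
  obtain ⟨K, hK⟩ := hK
  have hm : minIndex PSL(2, F) = 6 := by
    apply le_antisymm
    · refine Nat.sInf_le ⟨K, ?_, hK⟩
      rintro rfl
      rw [Subgroup.index_top] at hK
      omega
    · obtain ⟨Y, hY, hYi⟩ := exists_minIndex (X := PSL(2, F))
      rw [← hYi]
      by_contra hcon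
      push Not at hcon
      have h3 := Even.card_dvd_factorial Y hY
      rw [hG] at h3
      have h4 : (Y.index).factorial ∣ (5 : ℕ).factorial := Nat.factorial_dvd_factorial (by omega)
      have h5 := h3.trans h4
      have h6 : ¬ (360 : ℕ) ∣ (5 : ℕ).factorial := by decide
      exact h6 h5
  refine ⟨hm, fun A hA => ?_⟩
  have hsA : IsSimpleGroup A := isSimple hA K (by rw [hK, hm])
  have h6 : minIndex A = 6 := by rw [hA.2.2, hm]
  have h7 : 6 ∣ Nat.card A := hm ▸ Even.dvd_card hA
  have h8 : Nat.card A ∣ 360 := hG ▸ Subgroup.card_subgroup_dvd_card A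
  have h9' : 6 ≤ A.index := by
    rw [← hm]
    exact Nat.sInf_le ⟨A, hA.2.1, rfl⟩
  have h10 : Nat.card A * A.index = 360 := hG ▸ A.card_mul_index
  have h11 : Nat.card A ≤ 60 := by
    by_contra hcon
    push Not at hcon
    have : 61 * 6 ≤ Nat.card A * A.index := Nat.mul_le_mul hcon h9'
    omega
  exact no60 A h6 h8 h11 h7

end Pool.Agent.MP_4ddb19_al.Small
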