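import Pool.Agent.Lib.MP_4ddb19_al.Main

/-!
# Simple groups with `n(A) = 6` of order at most 60
-/

namespace Pool.Agent.MP_4ddb19_al.Small

open Subgroup MulAction Pool.Agent.MP_4ddb19_al

private lemma no60_arith1 (c m : ℕ) (hc : c < 11) (hm : m < 61) (h1 : c * m ∣ 360)
    (h2 : c * m ≤ 60) (h3 : 6 ∣ c * m) (h4 : ¬ 2 ∣ m) (h5 : 6 ≤ m) :
    (m = 9 ∨ m = 15) ∧ (c = 2 ∨ c = 4) := by
  have key : ∀ c : Fin 11, ∀ m : Fin 61, (c.val * m.val ∣ 360 ∧ c.val * m.val ≤ 60 ∧
      6 ∣ c.val * m.val ∧ ¬ 2 ∣ m.val ∧ 6 ≤ m.val) →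
      (m.val = 9 ∨ m.val = 15) ∧ (c.val = 2 ∨ c.val = 4) := by
    decide +kernel
  exact key ⟨c, hc⟩ ⟨m, hm⟩ ⟨h1, h2, h3, h4, h5⟩

private lemma no60_arith (c m n : ℕ) (hd : c * m ∣ 360) (hle : c * m ≤ 60) (h6 : 6 ∣ c * m)
    (hm : ¬ 2 ∣ m) (hn : n ∣ m) (hn6 : 6 ≤ n) : n = m ∧ (c = 2 ∨ c = 4) := by
  have hm0 : 0 < m := by
    rcases Nat.eq_zero_or_pos m with h | h
    · exact absurd (h ▸ dvd_zero 2) hm
    · exact h
  have hm6 : 6 ≤ m := hn6.trans (Nat.le_of_dvd hm0 hn)
  have hc0 : 0 < c := by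
    rcases Nat.eq_zero_or_pos c with h | h
    · subst h
      simp at hd
    · exact h
  have hc : c < 11 := by
    by_contra hcon
    push Not at hcon
    have := Nat.mul_le_mul hcon hm6
    omega
  have hm' : m < 61 := by
    by_contra hcon
    push Not at hcon
    have := Nat.mul_le_mul hc0 hcon
    omega
  obtain ⟨h1, h2⟩ := no60_arith1 c m hc hm' hd hle h6 hm hm6
  refine ⟨?_, h2⟩
  have hnm : n ≤ m := Nat.le_of_dvd hm0 hn
  rcases h1 with rfl | rfl
  · interval_cases n <;> omega
  · interval_cases n <;> omega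

/-- A simple group `A` with `n(A) = 6`, whose order is divisible by 6 and divides 360, has more
than 60 elements. -/
theorem no60 (A : Type) [Group A] [Finite A] [IsSimpleGroup A] (h6 : minIndex A = 6)
    (hd : Nat.card A ∣ 360) (hle : Nat.card A ≤ 60) (h6d : 6 ∣ Nat.card A) : False := by
  have hidx : ∀ Y : Subgroup A, Y ≠ ⊤ → 6 ≤ Y.index := by
    intro Y hY
    rw [← h6]
    exact Nat.sInf_le ⟨Y, hY, rfl⟩
  have h2 : Fact (Nat.Prime 2) := ⟨Nat.prime_two⟩
  have P : Sylow 2 A := default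
  have hcm : Nat.card (P : Subgroup A) * (P : Subgroup A).index = Nat.card A :=
    Subgroup.card_mul_index _
  have hodd : ¬ 2 ∣ (P : Subgroup A).index := P.not_dvd_index
  have h2A : 2 ∣ Nat.card A := Dvd.dvd.trans (by norm_num) h6d
  have h3A : 3 ∣ Nat.card A := Dvd.dvd.trans (by norm_num) h6d
  have h2P : 2 ∣ Nat.card (P : Subgroup A) := by
    rw [← hcm] at h2A
    exact (Nat.prime_two.dvd_mul.1 h2A).resolve_right hodd
  have hPk : ∃ k, Nat.card (P : Subgroup A) = 2 ^ k := ⟨_, P.card_eq_multiplicity⟩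
  have h3P : ¬ 3 ∣ Nat.card (P : Subgroup A) := by
    intro h
    obtain ⟨k, hk⟩ := hPk
    rw [hk] at h
    have := Nat.prime_three.dvd_of_dvd_pow h
    omega
  have hPbot : (P : Subgroup A) ≠ ⊥ := by
    intro h
    rw [h, Subgroup.card_bot] at h2P
    omega
  have hPtop : (P : Subgroup A) ≠ ⊤ := by
    intro h
    rw [h, Subgroup.card_top] at h3P
    exact h3P h3A
  have hN : normalizer ((P : Subgroup A) : Set A) ≠ ⊤ := by
    intro h
    have hn : (P : Subgroup A).Normal := Subgroup.normalizer_eq_top_iff.1 h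
    rcases hn.eq_bot_or_eq_top with h | h
    · exact hPbot h
    · exact hPtop h
  have hn6 := hidx _ hN
  have hnd : (normalizer ((P : Subgroup A) : Set A)).index ∣ (P : Subgroup A).index :=
    Subgroup.index_dvd_of_le Subgroup.le_normalizer
  rw [← hcm] at hd hle h6d
  obtain ⟨h7, h8⟩ := no60_arith _ _ _ hd hle h6d hodd hnd hn6
  have hNP : normalizer ((P : Subgroup A) : Set A) = (P : Subgroup A) := by
    symm
    apply Subgroup.eq_of_le_of_card_ge Subgroup.le_normalizer
    have e1 := Subgroup.card_mul_index (normalizer ((P : Subgroup A) : Set A))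
    rw [h7, ← hcm] at e1
    have hpos : 0 < (P : Subgroup A).index := by
      rw [← h7]
      omega
    exact (Nat.eq_of_mul_eq_mul_right hpos e1).le
  have hcomm : ∀ a b : (P : Subgroup A), a * b = b * a := by
    rcases h8 with h8 | h8
    · have : IsCyclic (P : Subgroup A) := isCyclic_of_prime_card h8
      intro a b
      exact (IsCyclic.isMulCommutative (α := (P : Subgroup A))).is_comm.comm a b
    · have := IsPGroup.isMulCommutative_of_card_eq_prime_sq (p := 2)
        (G := (P : Subgroup A)) (by rw [h8]; norm_num)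
      intro a b
      exact this.is_comm.comm a b
  have hPC : normalizer ((P : Subgroup A) : Set A) ≤ centralizer ((P : Subgroup A) : Set A) := by
    rw [hNP]
    intro x hx
    rw [Subgroup.mem_centralizer_iff]
    intro y hy
    exact congrArg Subtype.val (hcomm ⟨y, hy⟩ ⟨x, hx⟩)
  have hcompl := MonoidHom.ker_transferSylow_isComplement' P hPC
  have hker : (MonoidHom.transferSylow P hPC).ker.Normal := inferInstance
  rcases hker.eq_bot_or_eq_top with h | h
  · have e1 := hcompl.card_mul_card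
    rw [h, Subgroup.card_bot, one_mul] at e1
    rw [e1] at h3P
    exact h3P h3A
  · have e1 := hcompl.card_mul_card
    rw [h, Subgroup.card_top] at e1
    have hpos : 0 < Nat.card A := Nat.card_pos
    have e2 : Nat.card (P : Subgroup A) = 1 := by
      have e3 : Nat.card A * Nat.card (P : Subgroup A) = Nat.card A * 1 := by rw [mul_one]; exact e1
      exact Nat.eq_of_mul_eq_mul_left hpos e3
    omega

end Pool.Agent.MP_4ddb19_al.Small
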