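import Pool.Agent.Lib.MP_4ddb19_al.Odd

/-!
# Transfer of subgroups of `PSL_2` along a ring equivalence
-/

namespace Pool.Agent.MP_4ddb19_al.Small

open Subgroup MulAction Pool.Agent.MP_4ddb19_al
open scoped MatrixGroups LinearAlgebra.Projectivization Pointwise

theorem transfer {F F' : Type*} [Field F] [Field F'] (e : F ≃+* F') {n : ℕ}
    (h : ∃ K : Subgroup PSL(2, F'), K.index = n) : ∃ K : Subgroup PSL(2, F), K.index = n := by
  let f : SL(2, F) →* SL(2, F') := Matrix.SpecialLinearGroup.map e.toRingHom
  have hf : Function.Surjective f := by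
    intro M
    refine ⟨Matrix.SpecialLinearGroup.map e.symm.toRingHom M, ?_⟩
    ext i j
    simp [f]
  have hc : center SL(2, F) ≤ (center SL(2, F')).comap f := by
    intro x hx
    rw [mem_comap, mem_center_iff]
    intro y
    obtain ⟨z, rfl⟩ := hf y
    rw [← map_mul, ← map_mul, (mem_center_iff.1 hx z)]
  let φ : PSL(2, F) →* PSL(2, F') := QuotientGroup.map _ _ f hc
  have hφ : Function.Surjective φ := by
    intro y
    obtain ⟨M, rfl⟩ := QuotientGroup.mk_surjective y
    obtain ⟨z, rfl⟩ := hf M
    exact ⟨(z : PSL(2, F)), rfl⟩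
  obtain ⟨K, hK⟩ := h
  exact ⟨K.comap φ, by rw [Subgroup.index_comap_of_surjective _ hφ, hK]⟩

/-- For `|F| = q` prime it is enough to look at `ZMod q`. -/
theorem transfer_zmod {F : Type*} [Field F] [Finite F] {q n : ℕ} [Fact q.Prime]
    (hF : Nat.card F = q) (h : ∃ K : Subgroup PSL(2, ZMod q), K.index = n) :
    ∃ K : Subgroup PSL(2, F), K.index = n := by
  have hfF : Fintype F := Fintype.ofFinite F
  have hc : Fintype.card F = q := by rw [← Nat.card_eq_fintype_card, hF]
  exact transfer (ZMod.ringEquivOfPrime F Fact.out hc).symm h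

/-- Two finite fields of the same order. -/
theorem transfer_card {F F' : Type*} [Field F] [Finite F] [Field F'] [Finite F'] {n : ℕ}
    (hF : Nat.card F = Nat.card F') (h : ∃ K : Subgroup PSL(2, F'), K.index = n) :
    ∃ K : Subgroup PSL(2, F), K.index = n := by
  have hfF : Fintype F := Fintype.ofFinite F
  have hfF' : Fintype F' := Fintype.ofFinite F'
  exact transfer (FiniteField.ringEquivOfCardEq (by
    rw [← Nat.card_eq_fintype_card, ← Nat.card_eq_fintype_card, hF])) h

end Pool.Agent.MP_4ddb19_al.Small
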